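import Pool.Agent.J4H4.NG.Stm

/-!
# Project NG: Jensen
-/

set_option autoImplicit false

namespace Pool.Agent.J4H2.NG

open Complex Metric
open Pool.Agent.J4H4.NG

/-- (JEN) -/
theorem t_JEN : S_JEN := by
  intro f c r M hf hr hc hb S hS
  have hcn : 0 < ‖f c‖ := norm_pos_iff.mpr hc
  have hM0 : 0 ≤ M := by
    have h := hb c (by simp; linarith)
    by_contra hneg
    have h1 : Real.exp M < 1 := by
      have := Real.exp_lt_exp.mpr (not_le.mp hneg)
      rwa [Real.exp_zero] at this
    nlinarith
  set g : ℂ → ℂ := fun z => (f c)⁻¹ * f z with hg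
  have hgd : Differentiable ℂ g := hf.const_mul _
  have hgc : g c = 1 := by simp only [hg]; exact inv_mul_cancel₀ hc
  have hgan : AnalyticOnNhd ℂ g (closedBall c |2 * r|) := fun z _ => hgd.analyticAt z
  have key := AnalyticOnNhd.sum_divisor_le (c := c) (r := r) (R := 2 * r) (M := Real.exp M) (f := g)
    (by rwa [abs_of_pos hr]) (by rw [abs_of_pos hr, abs_of_pos (by linarith)]; linarith) (Real.one_le_exp hM0) hgan
    (by rw [hgc]; exact one_ne_zero) (by
      intro z hz
      rw [mem_sphere, dist_eq_norm, abs_of_pos (by linarith)] at hz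
      have h := hb z hz.le
      simp only [hg, norm_mul, norm_inv]
      rw [inv_mul_le_iff₀ hcn]
      linarith)
  rw [hgc, norm_one, div_one, Real.log_exp, show 2 * r / r = 2 by field_simp] at key
  refine le_trans ?_ key
  have hfin : (Function.support fun u => MeromorphicOn.divisor g (closedBall c |r|) u).Finite :=
    (MeromorphicOn.divisor g (closedBall c |r|)).finiteSupport (isCompact_closedBall _ _)
  have hmem : ∀ w ∈ S, w ∈ closedBall c |r| := fun w hw => by
    rw [mem_closedBall, dist_eq_norm, abs_of_pos hr]; exact (hS w hw).2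
  have hgan' : AnalyticOnNhd ℂ g (closedBall c |r|) := fun z _ => hgd.analyticAt z
  have hord : ∀ w, analyticOrderAt g w = analyticOrderAt f w := by
    intro w
    have e : g = (fun _ => (f c)⁻¹) * f := by funext z; rfl
    have h1 : AnalyticAt ℂ (fun _ : ℂ => (f c)⁻¹) w := analyticAt_const
    rw [e, analyticOrderAt_mul h1 (hf.analyticAt w), h1.analyticOrderAt_eq_zero.2 (inv_ne_zero hc), zero_add]
  have hdiv : ∀ w ∈ closedBall c |r|, MeromorphicOn.divisor g (closedBall c |r|) w = (analyticOrderNatAt f w : ℤ) := by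
    intro w hw
    rw [MeromorphicOn.AnalyticOnNhd.divisor_apply hgan' hw, hord w]
    unfold analyticOrderNatAt
    rcases eq_or_ne (analyticOrderAt f w) ⊤ with h | h
    · rw [h]; rfl
    · obtain ⟨n, hn⟩ := ENat.ne_top_iff_exists.1 h
      rw [← hn]; rfl
  have hnn : ∀ w, 0 ≤ MeromorphicOn.divisor g (closedBall c |r|) w := by
    intro w
    by_cases hw : w ∈ closedBall c |r|
    · rw [hdiv w hw]; positivity
    · rw [Function.locallyFinsuppWithin.apply_eq_zero_of_notMem _ hw]
  have hsum : (∑ w ∈ S, (analyticOrderNatAt f w : ℤ)) ≤ ∑ᶠ u, MeromorphicOn.divisor g (closedBall c |r|) u := by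
    rw [finsum_eq_sum_of_support_subset (s := hfin.toFinset ∪ S) _ (by
      intro u hu
      simp only [Finset.coe_union, Set.mem_union]
      left
      simpa using hu)]
    calc ∑ w ∈ S, (analyticOrderNatAt f w : ℤ) = ∑ w ∈ S, MeromorphicOn.divisor g (closedBall c |r|) w :=
          Finset.sum_congr rfl fun w hw => (hdiv w (hmem w hw)).symm
      _ ≤ _ := Finset.sum_le_sum_of_subset_of_nonneg Finset.subset_union_right fun w _ _ => hnn w
  exact_mod_cast hsum

end Pool.Agent.J4H2.NG
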