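import Pool.Agent.J4H4.NG.Stm

/-!
# Project NG, (G): the triangle, the correlation integral
-/

set_option autoImplicit false

namespace Pool.Agent.J4H2.NG

open Complex MeasureTheory Filter Topology Set intervalIntegral
open Pool.Agent.J4H4.NG

noncomputable section

/-- the triangle on `[0, l]` -/
def tri (l u : ℝ) : ℝ := 1 - |2 * u / l - 1|

/-- its Fourier transform -/
def trih (l ω : ℝ) : ℂ := ∫ u in (0 : ℝ)..l, ((tri l u : ℝ) : ℂ) * cexp (I * (ω * u : ℝ))

lemma tri_cont (l : ℝ) : Continuous (tri l) := by unfold tri; fun_prop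

lemma tri_left {l u : ℝ} (hl : 0 < l) (hu : u ≤ l / 2) : tri l u = 2 * u / l := by
  unfold tri
  rw [abs_of_nonpos]
  · ring
  · rw [sub_nonpos, div_le_one hl]; linarith

lemma tri_right {l u : ℝ} (hl : 0 < l) (hu : l / 2 ≤ u) : tri l u = 2 - 2 * u / l := by
  unfold tri
  rw [abs_of_nonneg]
  · ring
  · rw [sub_nonneg, one_le_div hl]; linarith

lemma tri_nonneg {l u : ℝ} (hl : 0 < l) (h0 : 0 ≤ u) (h1 : u ≤ l) : 0 ≤ tri l u := by
  unfold tri
  have : |2 * u / l - 1| ≤ 1 := by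
    rw [abs_le]
    constructor
    · have : 0 ≤ 2 * u / l := by positivity
      linarith
    · have : 2 * u / l ≤ 2 := by rw [div_le_iff₀ hl]; linarith
      linarith
  linarith

lemma tri_int {l : ℝ} (hl : 0 < l) : ∫ u in (0 : ℝ)..l, tri l u = l / 2 := by
  have hc := tri_cont l
  rw [← integral_add_adjacent_intervals (b := l / 2) (hc.intervalIntegrable _ _) (hc.intervalIntegrable _ _)]
  have e1 : ∫ u in (0 : ℝ)..(l / 2), tri l u = ∫ u in (0 : ℝ)..(l / 2), 2 / l * u := by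
    apply integral_congr
    intro u hu
    rw [uIcc_of_le (by linarith)] at hu
    have := tri_left hl hu.2
    rw [this]; ring
  have e2 : ∫ u in (l / 2)..l, tri l u = ∫ u in (l / 2)..l, ((2 : ℝ) - 2 / l * u) := by
    apply integral_congr
    intro u hu
    rw [uIcc_of_le (by linarith)] at hu
    have := tri_right hl hu.1
    rw [this]; ring
  have e3 : ∫ u in (l / 2)..l, ((2 : ℝ) - 2 / l * u) = (∫ u in (l / 2)..l, (2 : ℝ)) - ∫ u in (l / 2)..l, 2 / l * u :=
    intervalIntegral.integral_sub (by simp) ((by fun_prop : Continuous fun u : ℝ => 2 / l * u).intervalIntegrable _ _)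
  rw [e1, e2, e3, intervalIntegral.integral_const_mul, integral_id, intervalIntegral.integral_const_mul, integral_id]
  simp only [intervalIntegral.integral_const, smul_eq_mul]
  field_simp
  ring

lemma trih_zero {l : ℝ} (hl : 0 < l) : trih l 0 = ((l / 2 : ℝ) : ℂ) := by
  unfold trih
  simp only [zero_mul, Complex.ofReal_zero, mul_zero, Complex.exp_zero, mul_one]
  rw [← tri_int hl]
  exact intervalIntegral.integral_ofReal

lemma trih_le1 {l : ℝ} (hl : 0 < l) (ω : ℝ) : ‖trih l ω‖ ≤ l / 2 := by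
  unfold trih
  rw [← tri_int hl]
  refine (intervalIntegral.norm_integral_le_integral_norm hl.le).trans (le_of_eq ?_)
  apply integral_congr
  intro u hu
  rw [uIcc_of_le hl.le] at hu
  simp only [norm_mul]
  rw [mul_comm I, Complex.norm_exp_ofReal_mul_I, mul_one, Complex.norm_real, Real.norm_of_nonneg (tri_nonneg hl hu.1 hu.2)]

lemma piece (α β ω x y : ℝ) (hω : ω ≠ 0) :
    ∫ u in x..y, ((α + β * u : ℝ) : ℂ) * cexp (I * (ω * u : ℝ)) =
      ((α + β * y : ℝ) / (I * ω) + β / ω ^ 2) * cexp (I * (ω * y : ℝ)) -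
      ((α + β * x : ℝ) / (I * ω) + β / ω ^ 2) * cexp (I * (ω * x : ℝ)) := by
  have hωc : (ω : ℂ) ≠ 0 := by exact_mod_cast hω
  have hd : ∀ u : ℝ, HasDerivAt (fun u : ℝ => (((α + β * u : ℝ) : ℂ) / (I * ω) + β / ω ^ 2) * cexp (I * (ω * u : ℝ)))
      (((α + β * u : ℝ) : ℂ) * cexp (I * (ω * u : ℝ))) u := by
    intro u
    have h1 : HasDerivAt (fun u : ℝ => ((α + β * u : ℝ) : ℂ)) (β : ℂ) u := by
      have : HasDerivAt (fun u : ℝ => α + β * u) β u := by
        simpa using ((hasDerivAt_id u).const_mul β).const_add α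
      exact this.ofReal_comp
    have h2 : HasDerivAt (fun u : ℝ => (I * (ω * u : ℝ) : ℂ)) (I * ω) u := by
      have : HasDerivAt (fun u : ℝ => ω * u) ω u := by simpa using (hasDerivAt_id u).const_mul ω
      exact (this.ofReal_comp).const_mul I
    have h3 := ((h1.div_const (I * ω)).add_const ((β : ℂ) / ω ^ 2)).mul h2.cexp
    refine h3.congr_deriv ?_
    have hI : (β : ℂ) / (I * ω) + (β : ℂ) / ω ^ 2 * (I * ω) = 0 := by
      have hI2 : (I : ℂ) ^ 2 = -1 := Complex.I_sq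
      field_simp
      linear_combination (β : ℂ) * hI2
    have hI3 : (((α + β * u : ℝ) : ℂ) / (I * ω)) * (I * ω) = ((α + β * u : ℝ) : ℂ) := by
      field_simp
    linear_combination (cexp (I * (ω * u : ℝ))) * hI + cexp (I * (ω * u : ℝ)) * hI3
  rw [integral_eq_sub_of_hasDerivAt (fun u _ => hd u) (Continuous.intervalIntegrable (by fun_prop) _ _)]

lemma trih_le2 {l ω : ℝ} (hl : 0 < l) (hω : ω ≠ 0) : ‖trih l ω‖ ≤ 8 / (l * ω ^ 2) := by
  have hωc : (ω : ℂ) ≠ 0 := by exact_mod_cast hω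
  have hlc : (l : ℂ) ≠ 0 := by exact_mod_cast hl.ne'
  have hc : Continuous fun u : ℝ => ((tri l u : ℝ) : ℂ) * cexp (I * (ω * u : ℝ)) := by
    have := tri_cont l
    fun_prop
  have e : trih l ω = -(2 / (l * ω ^ 2) : ℂ) + 4 / (l * ω ^ 2) * cexp (I * (ω * (l / 2) : ℝ)) -
      2 / (l * ω ^ 2) * cexp (I * (ω * l : ℝ)) := by
    unfold trih
    rw [← integral_add_adjacent_intervals (b := l / 2) (hc.intervalIntegrable _ _) (hc.intervalIntegrable _ _)]
    have e1 : ∫ u in (0 : ℝ)..(l / 2), ((tri l u : ℝ) : ℂ) * cexp (I * (ω * u : ℝ)) =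
        ∫ u in (0 : ℝ)..(l / 2), ((0 + 2 / l * u : ℝ) : ℂ) * cexp (I * (ω * u : ℝ)) := by
      apply integral_congr
      intro u hu
      rw [uIcc_of_le (by linarith)] at hu
      have h := tri_left hl hu.2
      simp only [h, show 0 + 2 / l * u = 2 * u / l by ring]
    have e2 : ∫ u in (l / 2)..l, ((tri l u : ℝ) : ℂ) * cexp (I * (ω * u : ℝ)) =
        ∫ u in (l / 2)..l, ((2 + -(2 / l) * u : ℝ) : ℂ) * cexp (I * (ω * u : ℝ)) := by
      apply integral_congr
      intro u hu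
      rw [uIcc_of_le (by linarith)] at hu
      have h := tri_right hl hu.1
      simp only [h, show 2 + -(2 / l) * u = 2 - 2 * u / l by ring]
    rw [e1, e2, piece _ _ _ _ _ hω, piece _ _ _ _ _ hω]
    simp only [mul_zero, Complex.ofReal_zero, Complex.exp_zero]
    push_cast
    field_simp
    ring
  rw [e]
  have hn : ∀ c x : ℝ, 0 ≤ c → ‖((c : ℂ) / (l * ω ^ 2)) * cexp (I * (x : ℝ))‖ = c / (l * ω ^ 2) := by
    intro c x hc0
    rw [norm_mul, mul_comm I, Complex.norm_exp_ofReal_mul_I, mul_one]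
    have : ((c : ℂ) / (l * ω ^ 2)) = ((c / (l * ω ^ 2) : ℝ) : ℂ) := by push_cast; ring
    rw [this, Complex.norm_real, Real.norm_of_nonneg (by positivity)]
  have n0 : ‖-(2 / (l * ω ^ 2) : ℂ)‖ = 2 / (l * ω ^ 2) := by
    have := hn 2 0 (by norm_num)
    rw [norm_neg]
    simpa using this
  have n1 := hn 4 (ω * (l / 2)) (by norm_num)
  have n2 := hn 2 (ω * l) (by norm_num)
  push_cast at n1 n2
  calc _ ≤ ‖-(2 / (l * ω ^ 2) : ℂ)‖ + ‖4 / (l * ω ^ 2) * cexp (I * (ω * (l / 2) : ℝ))‖ +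
        ‖2 / (l * ω ^ 2) * cexp (I * (ω * l : ℝ))‖ := (norm_sub_le _ _).trans (by gcongr; exact norm_add_le _ _)
    _ = 8 / (l * ω ^ 2) := by
        push_cast
        rw [n0, n1, n2]; ring

/-- the correlation integral -/
lemma corr (A Q : Finset ℕ) (cc th : ℕ → ℂ) (l v : ℝ) :
    ∫ u in (0 : ℝ)..l, ((tri l u : ℝ) : ℂ) * ((∑ k ∈ A, cc k * cexp (-(I * ((Real.log k * (v + u) : ℝ) : ℂ)))) *
      (∑ p ∈ Q, th p * cexp (I * ((Real.log p * (v + u) : ℝ) : ℂ)))) =
    ∑ x ∈ A ×ˢ Q, (cc x.1 * th x.2 * trih l (Real.log x.2 - Real.log x.1)) *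
      cexp (I * ((Real.log x.2 - Real.log x.1 : ℝ) * v)) := by
  have e : ∀ u : ℝ, ((tri l u : ℝ) : ℂ) * ((∑ k ∈ A, cc k * cexp (-(I * ((Real.log k * (v + u) : ℝ) : ℂ)))) *
      (∑ p ∈ Q, th p * cexp (I * ((Real.log p * (v + u) : ℝ) : ℂ)))) =
      ∑ x ∈ A ×ˢ Q, (cc x.1 * th x.2 * cexp (I * ((Real.log x.2 - Real.log x.1 : ℝ) * v))) *
        (((tri l u : ℝ) : ℂ) * cexp (I * (((Real.log x.2 - Real.log x.1) * u : ℝ) : ℂ))) := by
    intro u
    rw [Finset.sum_mul_sum, ← Finset.sum_product', Finset.mul_sum]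
    apply Finset.sum_congr rfl
    rintro ⟨k, p⟩ -
    simp only
    have : cexp (-(I * ((Real.log k * (v + u) : ℝ) : ℂ))) * cexp (I * ((Real.log p * (v + u) : ℝ) : ℂ)) =
        cexp (I * ((Real.log p - Real.log k : ℝ) * v)) * cexp (I * (((Real.log p - Real.log k) * u : ℝ) : ℂ)) := by
      rw [← Complex.exp_add, ← Complex.exp_add]
      congr 1
      push_cast
      ring
    linear_combination (((tri l u : ℝ) : ℂ) * cc k * th p) * this
  simp only [e]
  have hc : ∀ ω : ℝ, Continuous fun u : ℝ => ((tri l u : ℝ) : ℂ) * cexp (I * (ω * u : ℝ)) := by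
    intro ω
    have := tri_cont l
    fun_prop
  rw [intervalIntegral.integral_finsetSum]
  · apply Finset.sum_congr rfl
    intro x _
    rw [intervalIntegral.integral_const_mul]
    unfold trih
    ring
  · intro x _
    exact ((hc _).const_mul _).intervalIntegrable _ _

end

end Pool.Agent.J4H2.NG
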